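import Pool.Agent.Lib.MP_e1ba52_h76.Defs

set_option autoImplicit false

namespace Pool.Agent.Lib.H76Crit

open Finset

variable {A : Type} [AddCommGroup A] [Fintype A] [DecidableEq A]

omit [Fintype A] [DecidableEq A] in
theorem isLatin_add : IsLatin (fun i j : A => i + j) :=
  ⟨fun i => (Equiv.addLeft i).bijective, fun j => (Equiv.addRight j).bijective⟩

omit [AddCommGroup A] [DecidableEq A] in
theorem energy (ρ γ σ : A → ℤ) {M : A → A → A} (hM : IsLatin M) :
    ∑ r, ∑ k, (σ (M r k) - ρ r - γ k) ^ 2 =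
      ∑ r, ∑ s, (σ s ^ 2 - 2 * σ s * ρ r) + ∑ r, ∑ k, (ρ r + γ k) ^ 2 -
        ∑ k, ∑ s, 2 * σ s * γ k := by
  have h1 : ∀ r, ∑ k, (σ (M r k) ^ 2 - 2 * σ (M r k) * ρ r) = ∑ s, (σ s ^ 2 - 2 * σ s * ρ r) :=
    fun r => (hM.1 r).sum_comp (fun s => σ s ^ 2 - 2 * σ s * ρ r)
  have h2 : ∀ k, ∑ r, 2 * σ (M r k) * γ k = ∑ s, 2 * σ s * γ k :=
    fun k => (hM.2 k).sum_comp (fun s => 2 * σ s * γ k)
  simp_rw [← h1, ← h2]
  rw [Finset.sum_comm (f := fun k r => 2 * σ (M r k) * γ k)]
  simp only [← Finset.sum_add_distrib, ← Finset.sum_sub_distrib]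
  exact Finset.sum_congr rfl fun r _ => Finset.sum_congr rfl fun k _ => by ring

omit [DecidableEq A] in
theorem rigid (ρ γ σ : A → ℤ) (hσ : Function.Injective σ) {M : A → A → A} (hM : IsLatin M)
    (h : ∀ r k, ρ r + γ k ≠ σ (r + k) → M r k = r + k) : M = fun r k => r + k := by
  have e := (energy ρ γ σ hM).trans (energy ρ γ σ isLatin_add).symm
  have e2 : ∑ r, ∑ k, ((σ (M r k) - ρ r - γ k) ^ 2 - (σ (r + k) - ρ r - γ k) ^ 2) = 0 := by
    simp only [Finset.sum_sub_distrib]; linarith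
  have hn : ∀ r k, 0 ≤ (σ (M r k) - ρ r - γ k) ^ 2 - (σ (r + k) - ρ r - γ k) ^ 2 := by
    intro r k
    by_cases hc : ρ r + γ k = σ (r + k)
    · rw [show σ (r + k) - ρ r - γ k = 0 by omega]
      nlinarith [sq_nonneg (σ (M r k) - ρ r - γ k)]
    · rw [h r k hc]; simp
  funext r k
  by_cases hc : ρ r + γ k = σ (r + k)
  · have h1 := (Finset.sum_eq_zero_iff_of_nonneg fun r _ =>
      Finset.sum_nonneg fun k _ => hn r k).1 e2 r (mem_univ _)
    have h2 := (Finset.sum_eq_zero_iff_of_nonneg fun k _ => hn r k).1 h1 k (mem_univ _)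
    rw [show σ (r + k) - ρ r - γ k = 0 by omega] at h2
    have h3 : σ (M r k) - ρ r - γ k = 0 := by
      have : (σ (M r k) - ρ r - γ k) ^ 2 = 0 := by linarith
      exact pow_eq_zero_iff (two_ne_zero) |>.1 this
    exact hσ (by omega)
  · exact h r k hc

omit [Fintype A] in
theorem exists_critical (U : Finset (A × A))
    (hU : ∀ M : A → A → A, IsLatin M → (∀ c ∈ U, M c.1 c.2 = c.1 + c.2) → M = fun r k => r + k) :
    ∃ S : Finset (A × A), Critical S ∧ ∀ x ∈ U, (∃ M : A → A → A, IsLatin M ∧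
      (∀ c ∈ U, c ≠ x → M c.1 c.2 = c.1 + c.2) ∧ M ≠ fun r k => r + k) → x ∈ S := by
  classical
  have h0 : UC U := ⟨fun r k => r + k, ⟨isLatin_add, fun _ _ => rfl⟩, fun M hM => hU M hM.1 hM.2⟩
  obtain ⟨S, hS, hmin⟩ := Finset.exists_min_image (U.powerset.filter fun S => UC S) Finset.card
    ⟨U, by simp [h0]⟩
  rw [mem_filter, mem_powerset] at hS
  refine ⟨S, ⟨hS.2, fun T hT hUC => ?_⟩, fun x _ ⟨M, hM, hag, hne⟩ => ?_⟩
  · have := hmin T (by rw [mem_filter, mem_powerset]; exact ⟨hT.subset.trans hS.1, hUC⟩)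
    have := card_lt_card hT
    omega
  · by_contra hx
    exact hne (hS.2.unique ⟨hM, fun c hc => hag c (hS.1 hc) (fun e => hx (e ▸ hc))⟩
      ⟨isLatin_add, fun _ _ => rfl⟩)

omit [AddCommGroup A] [DecidableEq A] in
theorem sum_count {X : Type} [DecidableEq X] (γ : Multiset X) (e : A → X) :
    ∑ s, (γ.count (e s) : ℤ) = (γ.map fun t => ∑ s, if e s = t then (1 : ℤ) else 0).sum := by
  induction γ using Multiset.induction_on with
  | empty => simp
  | cons t γ ih =>
    rw [Multiset.map_cons, Multiset.sum_cons, ← ih, ← Finset.sum_add_distrib]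
    refine Finset.sum_congr rfl fun s _ => ?_
    rw [Multiset.count_cons]; push_cast; ring

omit [AddCommGroup A] in
theorem unit_sum (f : A → ℤ) (h0 : ∀ s, 0 ≤ f s) (h1 : ∑ s, f s = 1) :
    (∃ s, 0 < f s) ∧ ∀ s s', 0 < f s → 0 < f s' → s = s' := by
  constructor
  · by_contra hc
    push Not at hc
    have : ∑ s, f s ≤ 0 := Finset.sum_nonpos fun s _ => hc s
    omega
  · intro s s' hs hs'
    by_contra hne
    have : ∑ x ∈ ({s, s'} : Finset A), f x ≤ ∑ x, f x :=
      Finset.sum_le_sum_of_subset_of_nonneg (subset_univ _) fun x _ _ => h0 x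
    rw [Finset.sum_pair hne] at this
    omega

theorem trade (α β : Multiset (A × A × A))
    (h : ∀ F G K : A → A → ℤ, (β.map fun t => F t.1 t.2.1 + G t.1 t.2.2 + K t.2.1 t.2.2).sum =
      (α.map fun t => F t.1 t.2.1 + G t.1 t.2.2 + K t.2.1 t.2.2).sum)
    (hα : ∀ p ∈ α, p.2.2 = p.1 + p.2.1) (hnd : α.Nodup) (t0 : A × A × A) (ht0 : t0 ∈ β)
    (hne : t0.2.2 ≠ t0.1 + t0.2.1) :
    ∃ M : A → A → A, IsLatin M ∧ (∀ r k, (r, k, r + k) ∉ α → M r k = r + k) ∧
      M ≠ fun r k => r + k := by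
  set N : A → A → A → ℤ := fun r k s =>
    (if r + k = s then 1 else 0) + (β.count (r, k, s) : ℤ) - α.count (r, k, s) with hN
  have ha : ∀ r k s, (α.count (r, k, s) : ℤ) ≤ if r + k = s then 1 else 0 := by
    intro r k s
    split_ifs with hc
    · exact_mod_cast Multiset.nodup_iff_count_le_one.1 hnd _
    · rw [Multiset.count_eq_zero_of_notMem fun hm => hc (hα _ hm).symm]; simp
  have N0 : ∀ r k s, 0 ≤ N r k s := fun r k s => by
    have := ha r k s
    simp only [hN]; omega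
  have c1 : ∀ r k, ∑ s, (β.count (r, k, s) : ℤ) = ∑ s, (α.count (r, k, s) : ℤ) := by
    intro r k
    have := h (fun x y => if r = x ∧ k = y then 1 else 0) 0 0
    rw [sum_count β (fun s => (r, k, s)), sum_count α (fun s => (r, k, s))]
    convert this using 3 <;> (rename_i t _; obtain ⟨x, y, z⟩ := t; simp [ite_and])
  have c2 : ∀ r s, ∑ k, (β.count (r, k, s) : ℤ) = ∑ k, (α.count (r, k, s) : ℤ) := by
    intro r s
    have := h 0 (fun x y => if r = x ∧ s = y then 1 else 0) 0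
    rw [sum_count β (fun k => (r, k, s)), sum_count α (fun k => (r, k, s))]
    convert this using 3 <;> (rename_i t _; obtain ⟨x, y, z⟩ := t; simp [ite_and])
  have c3 : ∀ k s, ∑ r, (β.count (r, k, s) : ℤ) = ∑ r, (α.count (r, k, s) : ℤ) := by
    intro k s
    have := h 0 0 (fun x y => if k = x ∧ s = y then 1 else 0)
    rw [sum_count β (fun r => (r, k, s)), sum_count α (fun r => (r, k, s))]
    convert this using 3 <;> (rename_i t _; obtain ⟨x, y, z⟩ := t; simp [ite_and])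
  have s1 : ∀ r k, ∑ s, N r k s = 1 := fun r k => by
    simp only [hN, Finset.sum_sub_distrib, Finset.sum_add_distrib, c1]; simp
  have s2 : ∀ r s, ∑ k, N r k s = 1 := fun r s => by
    simp only [hN, Finset.sum_sub_distrib, Finset.sum_add_distrib, c2]
    simp [← eq_neg_add_iff_add_eq]
  have s3 : ∀ k s, ∑ r, N r k s = 1 := fun k s => by
    simp only [hN, Finset.sum_sub_distrib, Finset.sum_add_distrib, c3]
    simp [← eq_sub_iff_add_eq]
  choose M hM using fun r k => (unit_sum (N r k) (N0 r k) (s1 r k)).1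
  have hu : ∀ r k s, 0 < N r k s → M r k = s :=
    fun r k s hs => (unit_sum (N r k) (N0 r k) (s1 r k)).2 _ _ (hM r k) hs
  refine ⟨M, ⟨fun r => Finite.injective_iff_bijective.1 fun k k' e => ?_,
    fun k => Finite.injective_iff_bijective.1 fun r r' e => ?_⟩, fun r k hk => hu _ _ _ ?_,
    fun e => ?_⟩
  · exact (unit_sum (fun k' => N r k' (M r k)) (fun _ => N0 _ _ _) (s2 _ _)).2 k k' (hM r k)
      (by rw [e]; exact hM r k')
  · exact (unit_sum (fun r' => N r' k (M r k)) (fun _ => N0 _ _ _) (s3 _ _)).2 r r' (hM r k)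
      (by rw [show M r k = M r' k from e]; exact hM r' k)
  · simp only [hN, Multiset.count_eq_zero_of_notMem hk, if_true]; omega
  · obtain ⟨x, y, z⟩ := t0
    have h1 : 0 < β.count (x, y, z) := Multiset.count_pos.2 ht0
    have h2 := ha x y z
    have h3 := hu x y z (by simp only [hN]; omega)
    rw [e] at h3
    exact hne h3.symm

end Pool.Agent.Lib.H76Crit
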