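import Mathlib

set_option autoImplicit false

namespace Pool.Agent.Lib.H76Crit

/-- `M` is a latin square with rows, columns and symbols indexed by `A`. -/
def IsLatin {A : Type} (M : A → A → A) : Prop :=
  (∀ i, Function.Bijective (M i)) ∧ ∀ j, Function.Bijective fun i => M i j

/-- The triples `(i, j, i + j)`, `(i, j) ∈ S`, lie in exactly one latin square. -/
def UC {A : Type} [Add A] (S : Finset (A × A)) : Prop :=
  ∃! M : A → A → A, IsLatin M ∧ ∀ c ∈ S, M c.1 c.2 = c.1 + c.2

/-- `S` is the cell set of a critical set of the addition table of `A`. -/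
def Critical {A : Type} [Add A] (S : Finset (A × A)) : Prop :=
  UC S ∧ ∀ T : Finset (A × A), T ⊂ S → ¬ UC T

end Pool.Agent.Lib.H76Crit
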