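import Pool.Agent.Lib.MP_e1ba52_h76.Sat

set_option autoImplicit false

namespace Pool.Agent.Lib.H76Crit

open Finset

theorem assemble {n : ℕ} [NeZero n] (m K κ θ T E : ℕ) (Q P e k_1 k' H : ℤ)
    (hθ : 0 < θ) (hT0 : 0 < T) (hQ : 4 * (θ : ℤ) < Q) (hk : Q + θ ≤ k_1 * θ)
    (hT : k_1 * (Q + θ) ≤ T) (hQT : Q ≤ T) (hdT : Q ∣ T) (hdP : Q ∣ P) (hP : 4 * (T : ℤ) < P)
    (hk' : P + T ≤ k' * T) (hH : k' * (P + T) + 5 * P ≤ H) (hH0 : 0 ≤ H) (hHn : (m + 4) * H ≤ n)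
    (n1 : (n : ℤ) = K * Q + e) (a1 : (m + 4) * e ≤ Q) (a2 : (m + 4) * (θ : ℤ) ≤ e) (a3 : m + 4 ≤ K)
    (a4 : Q ≤ ((m + 4) ^ 2 + (m + 4)) * θ)
    (n2 : (n : ℤ) = κ * P + E) (b1 : (m + 4) * (E : ℤ) ≤ P) (b2 : (m + 4) * (T : ℤ) ≤ E)
    (b3 : m + 4 ≤ κ) (b4 : P ≤ ((m + 4) ^ 2 + (m + 4)) * T) :
    ∃ S : Finset (ZMod n × ZMod n), Critical S ∧
      ((m : ℤ) + 4) * ((n : ℤ) ^ 2 - S.card) ≤ 23 * (n : ℤ) ^ 2 := by
  classical
  have hn0 : (0 : ℤ) < n := by exact_mod_cast NeZero.pos n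
  have hm : (0 : ℤ) ≤ m := by positivity
  have hθ' : (0 : ℤ) < θ := by exact_mod_cast hθ
  have hT' : (0 : ℤ) < T := by exact_mod_cast hT0
  have he : 0 < e := by nlinarith
  have hE : (0 : ℤ) < E := by nlinarith
  have hP0 : 0 < P := by omega
  obtain ⟨ρ, ρ1, ρ2⟩ := exists_lift (M := m + 4) n1 he a1
  obtain ⟨σ, σ1, σ2⟩ := exists_lift (M := m + 4) n2 hE b1
  set γ : ZMod n → ℤ := fun r => r.val with hγ
  have γ1 : ∀ r, (γ r : ZMod n) = r := fun r => by simp [hγ]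
  have γ2 : ∀ a : ℤ, 0 ≤ a ∧ a < n → γ a = a := fun a ha => by
    simp only [hγ]
    rw [ZMod.val_intCast, Int.emod_eq_of_lt ha.1 ha.2]
  have γ3 : ∀ r, 0 ≤ γ r ∧ γ r < n := fun r =>
    ⟨by simp only [hγ]; positivity, by simp only [hγ]; exact_mod_cast ZMod.val_lt r⟩
  obtain ⟨IR, r1, r2⟩ := inner m K θ n1 hθ a1 a2 a3 a4
  obtain ⟨IS, s1, s2⟩ := inner m κ T n2 hT0 b1 b2 b3 b4
  have hσi : Function.Injective σ := fun x y h => by rw [← σ1 x, h, σ1 y]
  obtain ⟨S, hS, hsat⟩ := exists_critical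
    (univ.filter fun c : ZMod n × ZMod n => ρ c.1 + γ c.2 ≠ σ (c.1 + c.2))
    (fun M hM h => rigid ρ γ σ hσi hM fun r k hc => h (r, k) (by simpa using hc))
  refine ⟨S, hS, ?_⟩
  have hHn' : H ≤ n := by nlinarith
  have hmem : ∀ r k : ZMod n, r ∈ IR → H ≤ γ k → γ k < n - H → r + k ∈ IS →
      ρ r + γ k ≠ σ (r + k) → (r, k) ∈ S := by
    intro r k hr hk1 hk2 hs hne
    obtain ⟨a, ea, a5, a6, a7⟩ := r2 r hr
    obtain ⟨s, es, s5, s6, s7⟩ := s2 _ hs
    have hRa : InB n (m + 4) Q e a := ⟨by omega, by linarith, a7.mono 0 (by omega) (by omega)⟩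
    have hSs : InB n (m + 4) P E s := ⟨by omega, by linarith, s7.mono 0 (by omega) (by omega)⟩
    have e1 : ρ r = a := by rw [← ea]; exact ρ2 a hRa
    have e2 : σ (r + k) = s := by rw [← es]; exact σ2 s hSs
    rw [e1, e2] at hne
    have e3 : (s : ZMod n) = a + (γ k : ℤ) := by rw [es, ea, γ1]
    obtain ⟨i, hi⟩ := (ZMod.intCast_eq_intCast_iff_dvd_sub s (a + γ k) n).1 (by push_cast; exact e3)
    have hN : H ≤ -s + γ k + a ∨ -s + γ k + a ≤ -H := by
      rcases lt_trichotomy i 0 with h | h | h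
      · right
        have : i ≤ -1 := by omega
        nlinarith
      · subst h; omega
      · left
        have : 1 ≤ i := h
        nlinarith
    obtain ⟨c0, c1, c2, c3, c4, c5⟩ := tri2 Q θ k_1 T P k' (-s) (γ k) a hθ' hQ hk hT hQT hdT hdP hP
      hk' H hH hN
    have hS' : ∀ x, Ph P (-s) (-(2 * T)) (2 * T) x → min (-s) (-(a + γ k)) ≤ x →
        x ≤ max (-s) (-(a + γ k)) → InB n (m + 4) P E (-x) ∧ n ≤ -x := by
      intro x h1 h2 h3
      have h4 : Ph P s (-(2 * T)) (2 * T) (-x) := Ph.neg (by simpa using h1)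
      have h5 : (n : ℤ) ≤ -x := by omega
      have h6 : -x < (m + 4) * n := by
        have : ((m : ℤ) + 4) * n = (m + 3) * n + n := by ring
        omega
      exact ⟨⟨by omega, h6, (s7.add h4).mono 0 (by omega) (by omega)⟩, h5⟩
    obtain ⟨M, hM, hag, hM'⟩ := saturate (InB n (m + 4) Q e) (fun b => 0 ≤ b ∧ b < n)
      (InB n (m + 4) P E) ρ γ σ ρ2 γ2 σ2 (-s) (γ k) a c0 hRa (γ3 k) (by simpa using hSs)
      (hS' c0 c4 c2 c3).1 c1 (by omega) (by simpa using e3) (c5.mono (by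
        rintro x y z hs ⟨g1, g2, g3, g4, g5, g6⟩
        obtain ⟨g7, g8⟩ := hS' x g2 g5 g6
        have := g7.2.1
        exact ⟨g7, by omega, by omega, by omega, (a7.add g1).mono 0 (by omega) (by omega)⟩))
    refine hsat (r, k) (by simpa [e1, e2] using hne) ⟨M, hM, fun c hc hx => ?_, hM'⟩
    refine hag c.1 c.2 (by simpa using hc) ?_
    rwa [ea, γ1]
  set B1 : Finset (ZMod n × ZMod n) := IRᶜ ×ˢ univ
  set B2 : Finset (ZMod n × ZMod n) := univ ×ˢ (univ.filter fun k => ¬ (H ≤ γ k ∧ γ k < n - H))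
  set B3 : Finset (ZMod n × ZMod n) := (univ ×ˢ ISᶜ).image fun c => (c.1, c.2 - c.1)
  set B4 : Finset (ZMod n × ZMod n) := univ.biUnion fun r =>
    (univ.filter fun k => r + k ∈ IS ∧ ρ r + γ k = σ (r + k)).image fun k => (r, k)
  have hcov : (univ : Finset (ZMod n × ZMod n)) ⊆ S ∪ B1 ∪ B2 ∪ B3 ∪ B4 := by
    rintro ⟨r, k⟩ -
    simp only [mem_union]
    by_cases h1 : r ∈ IR
    · by_cases h2 : H ≤ γ k ∧ γ k < n - H
      · by_cases h3 : r + k ∈ IS
        · by_cases h4 : ρ r + γ k = σ (r + k)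
          · exact Or.inr (mem_biUnion.2 ⟨r, mem_univ _, mem_image.2 ⟨k, by simp [h3, h4], rfl⟩⟩)
          · exact Or.inl (Or.inl (Or.inl (Or.inl (hmem r k h1 h2.1 h2.2 h3 h4))))
        · exact Or.inl (Or.inr (mem_image.2 ⟨(r, r + k), by simp [h3], by simp⟩))
      · exact Or.inl (Or.inl (Or.inr (mem_product.2 ⟨mem_univ _, mem_filter.2 ⟨mem_univ _, h2⟩⟩)))
    · exact Or.inl (Or.inl (Or.inl (Or.inr (mem_product.2 ⟨mem_compl.2 h1, mem_univ _⟩))))
  have c0 : n * n ≤ S.card + B1.card + B2.card + B3.card + B4.card := by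
    have := card_le_card hcov
    rw [card_univ, Fintype.card_prod, ZMod.card] at this
    have h1 := card_union_le (S ∪ B1 ∪ B2 ∪ B3) B4
    have h2 := card_union_le (S ∪ B1 ∪ B2) B3
    have h3 := card_union_le (S ∪ B1) B2
    have h4 := card_union_le S B1
    omega
  have hc : ∀ I : Finset (ZMod n), (Iᶜ.card : ℤ) = n - I.card := fun I => by
    have := card_add_card_compl I
    rw [ZMod.card] at this
    omega
  have c1 : (B1.card : ℤ) = (n - IR.card) * n := by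
    simp only [B1, card_product, card_univ, ZMod.card]; push_cast; rw [hc]
  have c3 : (B3.card : ℤ) ≤ n * (n - IS.card) := by
    have : B3.card ≤ n * ISᶜ.card := card_image_le.trans (by simp [ZMod.card])
    rw [← hc]; exact_mod_cast this
  have c2 : (B2.card : ℤ) ≤ n * (2 * H) := by
    have h1 : (univ.filter fun k => ¬ (H ≤ γ k ∧ γ k < n - H)).card ≤
        (Finset.Ico (0 : ℤ) H ∪ Finset.Ico (n - H) n).card := by
      refine card_le_card_of_injOn γ (fun k hk => ?_) fun x _ y _ h => by rw [← γ1 x, h, γ1 y]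
      have := γ3 k
      simp only [coe_filter, mem_univ, true_and, Set.mem_ofPred_eq] at hk
      simp only [coe_union, coe_Ico, Set.mem_union, Set.mem_Ico]
      omega
    have h2 := card_union_le (Finset.Ico (0 : ℤ) H) (Finset.Ico (n - H) n)
    simp only [Int.card_Ico] at h2
    simp only [B2, card_product, card_univ, ZMod.card]; push_cast
    exact mul_le_mul_of_nonneg_left (by omega) hn0.le
  have c4 : (B4.card : ℤ) ≤ n * ((κ + 2) * E) := by
    have : B4.card ≤ (univ : Finset (ZMod n)).card * ((κ + 2) * E) := by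
      refine card_biUnion_le_card_mul _ _ _ fun r _ => card_image_le.trans ?_
      rw [← card_image_of_injective _ (f := fun k => ρ r + γ k)
        (fun x y h => by rw [← γ1 x, show γ x = γ y by simpa using h, γ1 y])]
      refine few κ E P (ρ r) n hP0 (by linarith [mul_nonneg hm hE.le]) _ fun v hv => ?_
      obtain ⟨k, hk, rfl⟩ := mem_image.1 hv
      obtain ⟨h3, h4⟩ := (mem_filter.1 hk).2
      obtain ⟨s, es, s5, s6, s7⟩ := s2 _ h3
      have hSs : InB n (m + 4) P E s := ⟨by omega, by linarith, s7.mono 0 (by omega) (by omega)⟩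
      have e2 : σ (r + k) = s := by rw [← es]; exact σ2 s hSs
      have := γ3 k
      exact ⟨by omega, by omega, by rw [h4, e2]; exact hSs.2.2⟩
    rw [card_univ, ZMod.card] at this
    exact_mod_cast this
  have c0' : (n : ℤ) * n ≤ S.card + B1.card + B2.card + B3.card + B4.card := by exact_mod_cast c0
  have hκ : (m : ℤ) + 4 ≤ κ := by exact_mod_cast b3
  have d4 : ((m : ℤ) + 4) * ((κ + 2) * E) ≤ 3 * n := by
    have := mul_le_mul_of_nonneg_left b1 (show (0 : ℤ) ≤ κ + 2 by positivity)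
    have h1 : P ≤ κ * P := le_mul_of_one_le_left hP0.le (by omega)
    linarith
  have hM : (0 : ℤ) ≤ m + 4 := by positivity
  have f1 := mul_le_mul_of_nonneg_left r1 hn0.le
  have f2 := mul_le_mul_of_nonneg_left hHn hn0.le
  have f3 := mul_le_mul_of_nonneg_left s1 hn0.le
  have f4 := mul_le_mul_of_nonneg_left d4 hn0.le
  have g : (n : ℤ) ^ 2 - S.card ≤ (n - IR.card) * n + n * (2 * H) + n * (n - IS.card) +
      n * ((κ + 2) * E) := by linarith
  have := mul_le_mul_of_nonneg_left g hM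
  linarith

theorem core (m n : ℕ) (hn : 1089 * (m + 4) ^ 18 ≤ n) :
    ∃ S : Finset (ZMod n × ZMod n), Critical S ∧
      ((m : ℤ) + 4) * ((n : ℤ) ^ 2 - S.card) ≤ 23 * (n : ℤ) ^ 2 := by
  have hn0 : 0 < n := lt_of_lt_of_le (by positivity) hn
  have : NeZero n := ⟨hn0.ne'⟩
  obtain ⟨M, hM⟩ : ∃ M, M = m + 4 := ⟨_, rfl⟩
  obtain ⟨y, hy⟩ : ∃ y, y = M ^ 2 + M := ⟨_, rfl⟩
  obtain ⟨κ, hκ⟩ : ∃ κ, κ = M * (2 * (M ^ 2 + 2) + 5) := ⟨_, rfl⟩
  obtain ⟨K, hK⟩ : ∃ K, K = κ * (M * (M * (y + 3)) + 1) + M * (y + 3) := ⟨_, rfl⟩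
  obtain ⟨D, hD⟩ : ∃ D, D = K * y + M := ⟨_, rfl⟩
  have M4 : 4 ≤ M := by omega
  have hD0 : 0 < D := by omega
  have hDM : D ≤ 33 * M ^ 9 := by
    rw [hD, hK, hκ, hy, hM]
    ring_nf
    omega
  have hDn : D * D ≤ n := by
    refine (Nat.mul_le_mul hDM hDM).trans (le_trans (le_of_eq ?_) hn)
    rw [hM]; ring
  obtain ⟨θ, hθ⟩ : ∃ θ, θ = n / D := ⟨_, rfl⟩
  obtain ⟨r, hr⟩ : ∃ r, r = n % D := ⟨_, rfl⟩
  have h1 : D * θ + r = n := by rw [hθ, hr]; exact Nat.div_add_mod n D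
  have h2 : r < D := by rw [hr]; exact Nat.mod_lt _ hD0
  have h3 : D ≤ θ := by rw [hθ]; exact (Nat.le_div_iff_mul_le hD0).2 hDn
  have hy4 : 4 < y := by nlinarith
  have hκM : M ≤ κ := by rw [hκ]; exact Nat.le_mul_of_pos_right _ (by positivity)
  have hKM : M ≤ K := by
    rw [hK]; exact le_add_left (Nat.le_mul_of_pos_right _ (by positivity))
  obtain ⟨Q, hQ⟩ : ∃ Q, Q = y * θ := ⟨_, rfl⟩
  obtain ⟨T, hT⟩ : ∃ T, T = (y + 3) * Q := ⟨_, rfl⟩
  obtain ⟨P, hP⟩ : ∃ P, P = M ^ 2 * T + Q := ⟨_, rfl⟩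
  have θ0 : 0 < θ := by omega
  have Q0 : 0 < Q := by rw [hQ]; positivity
  have QT : Q ≤ T := by rw [hT]; exact Nat.le_mul_of_pos_left _ (by positivity)
  have n1 : n = K * Q + (M * θ + r) := by rw [← h1, hD, hQ]; ring
  have n2 : n = κ * P + (M * T + (M * θ + r)) := by rw [n1, hK, hP, hT]; ring
  have a1 : M * (M * θ + r) ≤ Q := by
    have : M * r ≤ M * θ := Nat.mul_le_mul_left _ (by omega)
    rw [hQ, hy]; linarith
  have t1 : 4 * θ < Q := by rw [hQ]; exact Nat.mul_lt_mul_of_pos_right hy4 θ0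
  have t2 : (y + 1) * (Q + θ) ≤ T := by
    have : θ ≤ y * θ := Nat.le_mul_of_pos_left _ (by omega)
    rw [hT, hQ]; linarith
  have t3 : 4 * T < P := by
    have : 4 * T ≤ M ^ 2 * T := Nat.mul_le_mul_right _ (by nlinarith)
    omega
  have t4 : P + T ≤ (M ^ 2 + 2) * T := by rw [hP]; linarith
  have t5 : M * ((M ^ 2 + 2) * (P + T) + 5 * P) ≤ n := by
    have : M * (M ^ 2 + 2) * T ≤ M * (M ^ 2 + 2) * P := Nat.mul_le_mul_left _ (by omega)
    have h5 : κ * P ≤ n := by omega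
    rw [hκ] at h5
    linarith
  have b1 : M * (M * T + (M * θ + r)) ≤ P := by rw [hP]; linarith
  have b4 : P ≤ (M ^ 2 + M) * T := by
    have : T ≤ M * T := Nat.le_mul_of_pos_left _ (by omega)
    rw [hP]; linarith
  have hM' : (m : ℤ) + 4 = M := by rw [hM]; push_cast; ring
  refine assemble m K κ θ T (M * T + (M * θ + r)) Q P (M * θ + r : ℕ) (y + 1 : ℕ) (M ^ 2 + 2 : ℕ)
    ((M ^ 2 + 2) * (P + T) + 5 * P : ℕ) θ0 (by omega) (by exact_mod_cast t1)
    (by rw [hQ]; push_cast; linarith) (by exact_mod_cast t2) (by exact_mod_cast QT)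
    ⟨y + 3, by rw [hT]; push_cast; ring⟩ ⟨M ^ 2 * (y + 3) + 1, by rw [hP, hT]; push_cast; ring⟩
    (by exact_mod_cast t3) (by exact_mod_cast t4) (by push_cast; exact le_rfl) (by positivity)
    (by rw [hM']; exact_mod_cast t5) (by exact_mod_cast n1) (by rw [hM']; exact_mod_cast a1)
    (by rw [hM']; exact_mod_cast Nat.le_add_right _ _) (by omega)
    (by rw [hM', hQ, hy]; push_cast; exact le_rfl) (by exact_mod_cast n2)
    (by rw [hM']; exact_mod_cast b1) (by rw [hM']; exact_mod_cast Nat.le_add_right _ _) (by omega)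
    (by rw [hM']; exact_mod_cast b4)

theorem main (n : ℕ) (hn : 1 ≤ n) : ∃ S : Finset (ZMod n × ZMod n), Critical S ∧
    (n : ℝ) ^ 2 - 50 * (n : ℝ) ^ (35 / 18 : ℝ) ≤ S.card := by
  have : NeZero n := ⟨by omega⟩
  have hn0 : (0 : ℝ) < n := by exact_mod_cast hn
  obtain ⟨x, hx⟩ : ∃ x : ℝ, x = (n : ℝ) ^ (1 / 18 : ℝ) := ⟨_, rfl⟩
  have x0 : 0 < x := by rw [hx]; positivity
  have x18 : x ^ 18 = n := by
    rw [hx, ← Real.rpow_natCast, ← Real.rpow_mul hn0.le]; norm_num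
  have x35 : (n : ℝ) ^ (35 / 18 : ℝ) * x = n ^ 2 := by
    rw [hx, ← Real.rpow_add hn0, ← Real.rpow_natCast]; norm_num
  have p0 : 0 < (n : ℝ) ^ (35 / 18 : ℝ) := by positivity
  generalize (n : ℝ) ^ (35 / 18 : ℝ) = w at *
  by_cases hc : x ≤ 50
  · obtain ⟨S, hS, -⟩ := exists_critical (univ : Finset (ZMod n × ZMod n))
      (fun M _ h => by funext r k; exact h (r, k) (mem_univ _))
    refine ⟨S, hS, ?_⟩
    have : (0 : ℝ) ≤ S.card := by positivity
    nlinarith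
  · have hc' : 50 < x := not_le.1 hc
    have h1 : (⌊x / (3 / 2)⌋₊ : ℝ) ≤ x / (3 / 2) := Nat.floor_le (by positivity)
    have h2 : x / (3 / 2) < ⌊x / (3 / 2)⌋₊ + 1 := Nat.lt_floor_add_one _
    obtain ⟨m, hm⟩ : ∃ m, ⌊x / (3 / 2)⌋₊ = m + 4 := by
      refine ⟨⌊x / (3 / 2)⌋₊ - 4, ?_⟩
      have : 4 ≤ ⌊x / (3 / 2)⌋₊ := Nat.le_floor (by push_cast; linarith)
      omega
    rw [hm] at h1 h2
    push_cast at h1 h2
    have h3 : 1089 * (m + 4) ^ 18 ≤ n := by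
      have h4 : (3 / 2 * ((m : ℝ) + 4)) ^ 18 ≤ x ^ 18 :=
        pow_le_pow_left₀ (by positivity) (by linarith) 18
      have h5 : (1089 : ℝ) * ((m : ℝ) + 4) ^ 18 ≤ n := by
        rw [mul_pow, x18] at h4
        refine le_trans (mul_le_mul_of_nonneg_right (by norm_num) (by positivity)) h4
      exact_mod_cast h5
    obtain ⟨S, hS, h6⟩ := core m n h3
    refine ⟨S, hS, ?_⟩
    have h7 : ((m : ℝ) + 4) * ((n : ℝ) ^ 2 - S.card) ≤ 23 * (n : ℝ) ^ 2 := by exact_mod_cast h6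
    have h8 : x ≤ 2 * ((m : ℝ) + 4) := by linarith
    have h9 : (0 : ℝ) < m + 4 := by positivity
    rw [← x35] at h7 ⊢
    have h10 : ((m : ℝ) + 4) * (w * x - S.card) ≤ (m + 4) * (50 * w) := by nlinarith
    linarith [le_of_mul_le_mul_left h10 h9]

end Pool.Agent.Lib.H76Crit
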