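import Pool.Agent.Lib.MP_e1ba52_h76.Tri
import Pool.Agent.Lib.MP_e1ba52_h76.Latin

set_option autoImplicit false

namespace Pool.Agent.Lib.H76Crit

theorem Ph.neg {p xb w a : ℤ} (h : Ph p (-xb) (-w) w (-a)) : Ph p xb (-w) w a := by
  obtain ⟨i, h1, h2⟩ := h
  exact ⟨-i, by linarith, by linarith⟩

theorem Ph.add {p xb lo hi lo' hi' a z : ℤ} (h : Ph p xb lo hi a) (h' : Ph p a lo' hi' z) :
    Ph p xb (lo + lo') (hi + hi') z := by
  obtain ⟨i, h1, h2⟩ := h
  obtain ⟨j, h3, h4⟩ := h'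
  exact ⟨i + j, by linarith, by linarith⟩

theorem tri2 (Q θ k T P k' c b a : ℤ) (hθ : 0 < θ) (hQ : 4 * θ < Q) (hk : Q + θ ≤ k * θ)
    (hT : k * (Q + θ) ≤ T) (hQT : Q ≤ T) (hdT : Q ∣ T) (hdP : Q ∣ P) (hP : 4 * T < P)
    (hk' : P + T ≤ k' * T) (H : ℤ) (hH : k' * (P + T) + 5 * P ≤ H)
    (hN : H ≤ c + b + a ∨ c + b + a ≤ -H) :
    ∃ c0, c0 ≠ c ∧ min c (-(a + b)) ≤ c0 ∧ c0 ≤ max c (-(a + b)) ∧
      Ph P c (-(2 * T)) (2 * T) c0 ∧
      Good (fun F G K => val (c, b, a) F G K - val (c0, b, a) F G K)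
        (fun x y z => Ph Q a (-(2 * θ)) (2 * θ) z ∧ Ph P c (-(2 * T)) (2 * T) x ∧
          b - H ≤ y ∧ y ≤ b + H ∧ min c (-(a + b)) ≤ x ∧ x ≤ max c (-(a + b))) := by
  have hH0 : 0 ≤ k' * (P + T) := by
    have : 0 < k' := by
      by_contra hc
      have : k' ≤ 0 := by omega
      nlinarith
    exact mul_nonneg this.le (by omega)
  rcases hN with hN | hN
  · obtain ⟨c0, h1, h2, h3, h4⟩ := tri Q θ k T P k' c b a hθ hQ hk hT hQT hdT hdP hP hk' (by omega)
    refine ⟨c0, by omega, by omega, by omega, h3, h4.mono ?_⟩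
    rintro x y z _ ⟨g1, g2, g3⟩
    exact ⟨g1, g2, by omega⟩
  · obtain ⟨c0, h1, h2, h3, h4⟩ := tri Q θ k T P k' (-c) (-b) (-a) hθ hQ hk hT hQT hdT hdP hP hk'
      (by omega)
    refine ⟨-c0, by omega, by omega, by omega, Ph.neg (by simpa using h3),
      h4.neg.conv (fun F G K => by simp only [val, neg_neg]) ?_⟩
    rintro x y z _ ⟨g1, g2, g3⟩
    exact ⟨g1.neg, g2.neg, by omega⟩

theorem saturate {n : ℕ} [NeZero n] (R C S : ℤ → Prop) (ρ γ σ : ZMod n → ℤ)
    (hρ : ∀ a, R a → ρ a = a) (hγ : ∀ a, C a → γ a = a) (hσ : ∀ a, S a → σ a = a)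
    (c b a c0 : ℤ) (ha : R a) (hb : C b) (hc : S (-c)) (hc0 : S (-c0)) (hne : c0 ≠ c)
    (h0 : c + b + a ≠ 0) (h1 : ((-c : ℤ) : ZMod n) = a + b)
    (hG : Good (fun F G K => val (c, b, a) F G K - val (c0, b, a) F G K)
      (fun x y z => S (-x) ∧ C y ∧ R z)) :
    ∃ M : ZMod n → ZMod n → ZMod n, IsLatin M ∧
      (∀ r k, ρ r + γ k ≠ σ (r + k) → (r, k) ≠ ((a : ZMod n), (b : ZMod n)) → M r k = r + k) ∧
      M ≠ fun r k => r + k := by
  obtain ⟨π, τ, g1, g2, g3⟩ := hG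
  set φ : ℤ × ℤ × ℤ → ZMod n × ZMod n × ZMod n :=
    fun t => ((t.2.2 : ZMod n), (t.2.1 : ZMod n), ((-t.1 : ℤ) : ZMod n)) with hφ
  have hm : ∀ p ∈ (c, b, a) ::ₘ π, S (-p.1) ∧ C p.2.1 ∧ R p.2.2 := by
    intro p hp
    rcases Multiset.mem_cons.1 hp with rfl | hp
    · exact ⟨hc, hb, ha⟩
    · exact (g2 p hp).2
  obtain ⟨M, hM, hag, hM'⟩ := trade (((c, b, a) ::ₘ π).map φ) (((c0, b, a) ::ₘ τ).map φ)
    (fun F G K => by
      have := g3 (fun x y => K y ((-x : ℤ) : ZMod n)) (fun x z => G z ((-x : ℤ) : ZMod n))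
        (fun y z => F z y)
      simp only [val] at this
      simp only [Multiset.map_map, Function.comp_def, Multiset.map_cons, Multiset.sum_cons, hφ]
      have e : ∀ μ : Multiset (ℤ × ℤ × ℤ), (μ.map fun t => F (t.2.2 : ZMod n) (t.2.1 : ZMod n) +
          G (t.2.2 : ZMod n) ((-t.1 : ℤ) : ZMod n) + K (t.2.1 : ZMod n) ((-t.1 : ℤ) : ZMod n)) =
          μ.map fun t => K (t.2.1 : ZMod n) ((-t.1 : ℤ) : ZMod n) +
          G (t.2.2 : ZMod n) ((-t.1 : ℤ) : ZMod n) + F (t.2.2 : ZMod n) (t.2.1 : ZMod n) :=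
        fun μ => Multiset.map_congr rfl fun t _ => by ring
      rw [e, e, this]; ring)
    (by
      intro p hp
      obtain ⟨t, ht, rfl⟩ := Multiset.mem_map.1 hp
      rcases Multiset.mem_cons.1 ht with rfl | ht
      · exact h1
      · have := (g2 t ht).1
        simp only [hφ]
        rw [show -t.1 = t.2.2 + t.2.1 by omega]; push_cast; rfl)
    (by
      refine Multiset.Nodup.map_on (fun p hp q hq e => ?_) ?_
      · obtain ⟨p1, p2, p3⟩ := hm p hp
        obtain ⟨q1, q2, q3⟩ := hm q hq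
        simp only [hφ, Prod.mk.injEq] at e
        have e1 := hρ _ p3
        have e2 := hγ _ p2
        have e3 := hσ _ p1
        rw [e.1, hρ _ q3] at e1
        rw [e.2.1, hγ _ q2] at e2
        rw [e.2.2, hσ _ q1] at e3
        exact Prod.ext (by omega) (Prod.ext e2.symm e1.symm)
      · exact Multiset.nodup_cons.2 ⟨fun hx => h0 (g2 _ hx).1, g1⟩)
    (φ (c0, b, a)) (Multiset.mem_map_of_mem _ (Multiset.mem_cons_self _ _))
    (by
      simp only [hφ]
      intro e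
      have e3 := hσ _ hc0
      rw [e, ← h1, hσ _ hc] at e3
      omega)
  refine ⟨M, hM, fun r k h2 h3 => hag r k fun hp => ?_, hM'⟩
  obtain ⟨t, ht, e⟩ := Multiset.mem_map.1 hp
  simp only [hφ, Prod.mk.injEq] at e
  rcases Multiset.mem_cons.1 ht with rfl | ht
  · exact h3 (Prod.ext e.1.symm e.2.1.symm)
  · obtain ⟨p0, p1, p2, p3⟩ := g2 t ht
    apply h2
    rw [← e.2.2, ← e.1, ← e.2.1, hρ _ p3, hγ _ p2, hσ _ p1]
    omega

def InB (n M p e a : ℤ) : Prop := 0 ≤ a ∧ a < M * n ∧ Ph p 0 0 (e - 1) a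

theorem InB.inj {n : ℕ} {M p e K a a' : ℤ} (hn : (n : ℤ) = K * p + e) (he : 0 < e)
    (hM : M * e ≤ p) (h : InB n M p e a) (h' : InB n M p e a')
    (hc : (a : ZMod n) = (a' : ZMod n)) : a = a' := by
  have key : ∀ {a a' i : ℤ}, InB n M p e a → InB n M p e a' → 0 < i → a = a' + n * i → False := by
    intro a a' i ⟨h1, h2, h3⟩ ⟨g1, g2, j, g3, g4⟩ hi e1
    have hn0 : (0 : ℤ) ≤ n := by positivity
    have hiM : i + 1 ≤ M := by
      by_contra hc
      have : M ≤ i := by omega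
      nlinarith
    have hp : 0 < p := by nlinarith
    refine h3.disj (lo' := e) (hi' := M * e - 1) ⟨j + K * i, ?_, ?_⟩ hp (by omega) (by omega)
    · rw [e1, hn]; nlinarith
    · rw [e1, hn]; nlinarith
  obtain ⟨i, hi⟩ := (ZMod.intCast_eq_intCast_iff_dvd_sub a a' n).1 hc
  rcases lt_trichotomy i 0 with h0 | h0 | h0
  · exact (key h h' (i := -i) (by omega) (by linarith)).elim
  · subst h0; omega
  · exact (key h' h h0 (by linarith)).elim

theorem exists_lift {n : ℕ} [NeZero n] {M p e K : ℤ} (hn : (n : ℤ) = K * p + e) (he : 0 < e)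
    (hM : M * e ≤ p) : ∃ ρ : ZMod n → ℤ, (∀ r, (ρ r : ZMod n) = r) ∧
      ∀ a, InB n M p e a → ρ a = a := by
  have : ∀ r : ZMod n, ∃ a : ℤ, (a : ZMod n) = r ∧ ∀ a', InB n M p e a' → (a' : ZMod n) = r →
      a = a' := by
    intro r
    by_cases hc : ∃ a, InB n M p e a ∧ (a : ZMod n) = r
    · obtain ⟨a, h1, h2⟩ := hc
      exact ⟨a, h2, fun a' h3 h4 => h1.inj hn he hM h3 (h2.trans h4.symm)⟩
    · exact ⟨(r.val : ℤ), by simp, fun a' h3 h4 => (hc ⟨a', h3, h4⟩).elim⟩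
  choose ρ h1 h2 using this
  exact ⟨ρ, h1, fun a ha => h2 _ a ha rfl⟩

theorem inner {n : ℕ} [NeZero n] (m K t : ℕ) {p e : ℤ} (hn : (n : ℤ) = K * p + e) (ht : 0 < t)
    (hM : (m + 4) * e ≤ p) (hte : (m + 4) * t ≤ e) (hK : m + 4 ≤ K)
    (hp : p ≤ ((m + 4) ^ 2 + (m + 4)) * t) :
    ∃ I : Finset (ZMod n), ((m : ℤ) + 4) * (n - I.card) ≤ 9 * n ∧ ∀ r ∈ I, ∃ a : ℤ,
      (a : ZMod n) = r ∧ n ≤ a ∧ a < (m + 3) * n ∧ Ph p 0 (2 * t) (e - 1 - 2 * t) a := by
  classical
  have ht' : (0 : ℤ) < t := by exact_mod_cast ht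
  have hK' : (m : ℤ) + 4 ≤ K := by exact_mod_cast hK
  have hm : (0 : ℤ) ≤ m := by positivity
  have he : 0 < e := by nlinarith
  have hep : e ≤ p := by nlinarith
  have hp0 : 0 < p := by omega
  set f : ℕ × ℕ → ℤ := fun x => (K + 1 + x.1) * p + 2 * t + x.2 with hf
  set D := Finset.range ((m + 1) * K) ×ˢ Finset.range (m * t) with hD
  have hb : ∀ x ∈ D, (n : ℤ) ≤ f x ∧ f x < (m + 3) * n ∧ Ph p 0 (2 * t) (e - 1 - 2 * t) (f x) ∧
      (x.2 : ℤ) < p := by
    intro x hx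
    simp only [hD, Finset.mem_product, Finset.mem_range] at hx
    have h1 : (x.1 : ℤ) + 1 ≤ (m + 1) * K := by exact_mod_cast hx.1
    have h2 : (x.2 : ℤ) + 1 ≤ m * t := by exact_mod_cast hx.2
    have h3 : (0 : ℤ) ≤ x.1 := by positivity
    have h4 : (0 : ℤ) ≤ x.2 := by positivity
    have h5 := mul_le_mul_of_nonneg_right h1 hp0.le
    have h6 : p ≤ K * p := by nlinarith
    refine ⟨?_, ?_, ⟨K + 1 + x.1, ?_, ?_⟩, by nlinarith⟩ <;> simp only [hf]
    · nlinarith
    · rw [hn]; nlinarith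
    · linarith
    · linarith
  refine ⟨D.image fun x => (f x : ZMod n), ?_, ?_⟩
  · rw [Finset.card_image_of_injOn]
    · simp only [hD, Finset.card_product, Finset.card_range]
      push_cast
      have h1 : (n : ℤ) ≤ (K + 1) * (((m + 4) ^ 2 + (m + 4)) * t) := by
        have := mul_le_mul_of_nonneg_left hp (show (0 : ℤ) ≤ K + 1 by positivity)
        linarith
      have hn0 : (0 : ℤ) ≤ n := by positivity
      rcases le_or_gt (m : ℤ) 5 with h | h
      · have : (0 : ℤ) ≤ (m + 4) * ((m + 1) * K * (m * t)) := by positivity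
        nlinarith
      · have h2 := mul_le_mul_of_nonneg_left h1 (show (0 : ℤ) ≤ m - 5 by omega)
        have h3 : ((m : ℤ) - 5) * (m + 5) * (K + 1) ≤ (m + 1) * m * K := by nlinarith
        have h4 := mul_le_mul_of_nonneg_right h3 (show (0 : ℤ) ≤ (m + 4) * t by positivity)
        nlinarith
    · intro x hx y hy e
      obtain ⟨x1, x2, x3, x4⟩ := hb x hx
      obtain ⟨y1, y2, y3, y4⟩ := hb y hy
      have hn0 : (0 : ℤ) ≤ n := by positivity
      have e1 : f x = f y := InB.inj (M := m + 4) hn he hM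
        ⟨by omega, by linarith, x3.mono 0 (by omega) (by omega)⟩
        ⟨by omega, by linarith, y3.mono 0 (by omega) (by omega)⟩ e
      simp only [hf] at e1
      have h3 : (0 : ℤ) ≤ x.2 := by positivity
      have h4 : (0 : ℤ) ≤ y.2 := by positivity
      have e2 : (x.1 : ℤ) = y.1 := by
        rcases lt_trichotomy (x.1 : ℤ) y.1 with h | h | h
        · have : (x.1 : ℤ) + 1 ≤ y.1 := h
          nlinarith
        · exact h
        · have : (y.1 : ℤ) + 1 ≤ x.1 := h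
          nlinarith
      rw [e2] at e1
      exact Prod.ext (by exact_mod_cast e2) (by omega)
  · intro r hr
    obtain ⟨x, hx, rfl⟩ := Finset.mem_image.1 hr
    exact ⟨f x, rfl, (hb x hx).1, (hb x hx).2.1, (hb x hx).2.2.1⟩

theorem few (K E : ℕ) (p a n : ℤ) (hp : 0 < p) (hn : n ≤ (K + 1) * p) (X : Finset ℤ)
    (hX : ∀ v ∈ X, a ≤ v ∧ v < a + n ∧ Ph p 0 0 (E - 1) v) : X.card ≤ (K + 2) * E := by
  classical
  have : X ⊆ (Finset.range (K + 2) ×ˢ Finset.range E).image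
      fun x : ℕ × ℕ => (a / p + x.1) * p + x.2 := by
    intro v hv
    obtain ⟨h1, h2, i, h3, h4⟩ := hX v hv
    have h5 : a / p * p ≤ a := Int.ediv_mul_le a hp.ne'
    have h6 : a < (a / p + 1) * p := Int.lt_ediv_add_one_mul_self a hp
    by_cases hE : (E : ℤ) ≤ p
    · have h7 : a / p ≤ i := by
        by_contra hc
        have : i + 1 ≤ a / p := by omega
        nlinarith
      have h8 : i < a / p + K + 2 := by
        by_contra hc
        have : a / p + K + 2 ≤ i := by omega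
        nlinarith
      refine Finset.mem_image.2 ⟨((i - a / p).toNat, (v - i * p).toNat), ?_, ?_⟩
      · simp only [Finset.mem_product, Finset.mem_range]; omega
      · simp only
        rw [Int.toNat_of_nonneg (by omega), Int.toNat_of_nonneg (by omega)]; ring
    · have g5 : v / p * p ≤ v := Int.ediv_mul_le v hp.ne'
      have g6 : v < (v / p + 1) * p := Int.lt_ediv_add_one_mul_self v hp
      have h7 : a / p ≤ v / p := Int.ediv_le_ediv hp h1
      have h8 : v / p < a / p + K + 2 := by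
        by_contra hc
        have : a / p + K + 2 ≤ v / p := by omega
        nlinarith
      refine Finset.mem_image.2 ⟨((v / p - a / p).toNat, (v - v / p * p).toNat), ?_, ?_⟩
      · simp only [Finset.mem_product, Finset.mem_range]
        have : v - v / p * p < E := by linarith
        omega
      · simp only
        rw [Int.toNat_of_nonneg (by omega), Int.toNat_of_nonneg (by omega)]; ring
  refine (Finset.card_le_card this).trans (Finset.card_image_le.trans ?_)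
  simp

end Pool.Agent.Lib.H76Crit
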