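import Pool.Agent.Lib.MP_e1ba52_h76.Til

set_option autoImplicit false

namespace Pool.Agent.Lib.H76Crit

def Ph (p xb lo hi a : ℤ) : Prop := ∃ i : ℤ, xb + i * p + lo ≤ a ∧ a ≤ xb + i * p + hi

theorem Ph.disj {p xb lo hi lo' hi' a : ℤ} (h : Ph p xb lo hi a) (h' : Ph p xb lo' hi' a)
    (hp : 0 < p) (h1 : hi < lo') (h2 : hi' < lo + p) : False := by
  obtain ⟨i, hi1, hi2⟩ := h
  obtain ⟨j, hj1, hj2⟩ := h'
  rcases le_or_gt i j with h | h
  · nlinarith [mul_le_mul_of_nonneg_right h hp.le]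
  · have : j + 1 ≤ i := h
    nlinarith [mul_le_mul_of_nonneg_right this hp.le]

theorem Ph.mono {p xb xb' lo hi lo' hi' a : ℤ} (h : Ph p xb lo hi a) (k : ℤ)
    (h1 : xb' + k * p + lo' ≤ xb + lo) (h2 : xb + hi ≤ xb' + k * p + hi') : Ph p xb' lo' hi' a := by
  obtain ⟨i, hi1, hi2⟩ := h
  exact ⟨i + k, by linarith, by linarith⟩

theorem Ph.of_dvd {p xb a : ℤ} (h : p ∣ a - xb) : Ph p xb 0 0 a := by
  obtain ⟨i, hi⟩ := h
  exact ⟨i, by linarith, by linarith⟩

def HP (W : ℤ → Prop) (u zb tlo lo : ℤ) : Prop :=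
  ∀ x t z l : ℤ, tlo ≤ t → lo ≤ l → u ∣ l → u ∣ z - zb →
    Good (par13 x (x + t) z (z + l)) (fun a _ c => W c ∧ box x (x + t) z (z + l) a c)

theorem block {W : ℤ → Prop} {u zb tlo lo : ℤ} (H : HP W u zb tlo lo)
    (hW : ∀ z, u ∣ z - zb → W z) (y h z l : ℤ) (ht : tlo ≤ h - l) (ht0 : 0 < h - l) (hl : lo ≤ l)
    (hl0 : 0 < l) (hu : u ∣ l) (hz : u ∣ z - zb) :
    Good (par23 y (y + h) z (z + l))
      (fun a b c => W c ∧ y < b ∧ b < y + h ∧ -y - h - z ≤ a ∧ a ≤ -y - z - l) := by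
  have h0 := H (-y - h - z) (h - l) z l ht hl hu hz
  have hz' : u ∣ z + l - zb := by
    have := dvd_add hz hu
    rwa [show z - zb + l = z + l - zb by ring] at this
  have h1 := (((h0.tile (-y - h - z) (y + h) (z + l)).tile (-y - z - l) y z).absorb
    (-y - h - z) (y + h - l) (z + l) (by ring) (by unfold box; omega)).absorb
    (-y - z - l) (y + l) z (by ring) (by unfold box; omega)
  refine h1.conv (fun F G K => by simp only [val, par13, par23]; ring_nf) ?_
  rintro a b c hs ((⟨h1, h2⟩ | ⟨rfl, rfl, rfl⟩) | ⟨rfl, rfl, rfl⟩)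
  · refine ⟨h1, ?_⟩; unfold box at h2; omega
  · exact ⟨hW _ hz', by omega⟩
  · exact ⟨hW _ hz, by omega⟩

theorem run {W : ℤ → Prop} {u zb tlo lo : ℤ} (H : HP W u zb tlo lo)
    (hW : ∀ z, u ∣ z - zb → W z) (p θ y zh l x : ℤ) (hx : x = -y - p - θ - zh + l)
    (ht : tlo ≤ θ) (hθ : 0 < θ) (hp : 2 * θ < p) (hl : lo ≤ l) (hl1 : p - θ ≤ l) (hl2 : l ≤ p)
    (hu : u ∣ l) (hup : u ∣ p) (hz : u ∣ zh - zb) (i : ℕ) :
    Good (par23 y (y + (p + θ)) (zh - l - i * p) zh)
      (fun a b c => W c ∧ y ≤ b ∧ b ≤ y + p + θ ∧ x ≤ a ∧ a ≤ x + i * p + 2 * θ ∧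
        Ph p x 0 (p + θ - l) a ∧ (b = y → x + p + θ ≤ a ∧ Ph p x θ θ a) ∧
        (b = y + p + θ → a < x + i * p ∧ Ph p x 0 0 a)) := by
  induction i with
  | zero =>
    have hz' : u ∣ zh - l - zb := by
      have := dvd_sub hz hu
      rwa [show zh - zb - l = zh - l - zb by ring] at this
    have h0 := block H hW y (p + θ) (zh - l) l (by omega) (by omega) hl (by omega) hu hz'
    refine h0.conv (fun F G K => by simp only [par23]; push_cast; ring_nf) ?_
    rintro a b c hs ⟨h1, h2, h3, h4, h5⟩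
    refine ⟨h1, by omega, by omega, by omega, by push_cast; omega, ⟨0, by omega, by omega⟩,
      fun h => by omega, fun h => by omega⟩
  | succ i ih =>
    have hz0 : u ∣ zh - l - i * p - zb := by
      have := dvd_sub (dvd_sub hz hu) (Dvd.dvd.mul_left hup (i : ℤ))
      rwa [show zh - zb - l - i * p = zh - l - i * p - zb by ring] at this
    have hz' : u ∣ zh - l - i * p - p - zb := by
      have := dvd_sub hz0 hup
      rwa [show zh - l - i * p - zb - p = zh - l - i * p - p - zb by ring] at this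
    have hi : 0 ≤ (i : ℤ) * p := mul_nonneg (by positivity) (by omega)
    have h0 := block H hW y (p + θ) (zh - l - i * p - p) p (by omega) (by omega) (by omega)
      (by omega) hup hz'
    have e1 : ((i + 1 : ℕ) : ℤ) * p = i * p + p := by push_cast; ring
    rw [e1]
    have q1 : Ph p x 0 0 (x + i * p) := ⟨i, by omega, by omega⟩
    have q2 : Ph p x θ θ (x + i * p + p + θ) := ⟨i + 1, by linarith, by linarith⟩
    have q3 : ∀ a, x + i * p + p ≤ a → a ≤ x + i * p + p + θ → Ph p x 0 (p + θ - l) a :=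
      fun a h1 h2 => ⟨i + 1, by linarith, by linarith⟩
    generalize (i : ℤ) * p = m at *
    have h1 := ((ih.glue h0 (fun a b c hs h1 h2 => by omega)).absorb
      (x + m) (y + p + θ) (zh - l - m) (by omega) (by omega)).absorb
      (x + m + p + θ) y (zh - l - m) (by omega) (by omega)
    refine h1.conv (fun F G K => by subst hx; simp only [val, par23]; ring_nf) ?_
    rintro a b c hs (((⟨h1, h2, h3, h4, h5, h6, h7, h8⟩ | ⟨h1, h2⟩) | ⟨rfl, rfl, rfl⟩) |
      ⟨rfl, rfl, rfl⟩)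
    · exact ⟨h1, h2, h3, h4, by omega, h6, h7, fun h => ⟨by have := (h8 h).1; omega, (h8 h).2⟩⟩
    · exact ⟨h1, by omega, by omega, by omega, by omega, q3 _ (by omega) (by omega),
        fun h => by omega, fun h => by omega⟩
    · exact ⟨hW _ hz0, by omega, by omega, by omega, by omega,
        q1.mono 0 (by omega) (by omega), fun h => by omega, fun _ => ⟨by omega, q1⟩⟩
    · exact ⟨hW _ hz0, by omega, by omega, by omega, by omega, q3 _ (by omega) (by omega),
        fun _ => ⟨by omega, q2⟩, fun h => by omega⟩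

theorem strip {W : ℤ → Prop} {u zb tlo lo : ℤ} (H : HP W u zb tlo lo)
    (hW : ∀ z, u ∣ z - zb → W z) (p θ x y : ℤ) (j : ℕ)
    (ht : tlo ≤ θ) (hθ : 0 < θ) (hp : 2 * θ < p) (hl : lo ≤ p - θ)
    (hu : u ∣ θ) (hup : u ∣ p) (hz : u ∣ -x - y - zb) :
    Good (par12 x (x + (j + 2) * p) y (y + (p + θ)))
      (fun a b c => W c ∧ x < a ∧ a < x + (j + 2) * p ∧ y ≤ b ∧ b ≤ y + p + θ ∧
        Ph p x (-θ) θ a ∧ (b = y → Ph p x 0 θ a) ∧ (b = y + p + θ → Ph p x (-θ) (-θ) a)) := by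
  have hz1 : u ∣ -x - y - p - θ - zb := by
    have := dvd_sub (dvd_sub hz hup) hu
    rwa [show -x - y - zb - p - θ = -x - y - p - θ - zb by ring] at this
  have hz2 : u ∣ -x - y - (j + 2) * p - zb := by
    have := dvd_sub hz (Dvd.dvd.mul_left hup ((j : ℤ) + 2))
    rwa [show -x - y - zb - (j + 2) * p = -x - y - (j + 2) * p - zb by ring] at this
  have h0 := run H hW p θ y (-x - y - p - θ) (p - θ) (x + p - θ) (by ring) ht hθ hp hl le_rfl
    (by omega) (dvd_sub hup hu) hup hz1 j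
  have hj : 0 ≤ (j : ℤ) * p := mul_nonneg (by positivity) (by omega)
  have e1 : ((j : ℤ) + 2) * p = j * p + 2 * p := by ring
  have q1 : Ph p x θ θ (x + p + θ) := ⟨1, by omega, by omega⟩
  have q2 : Ph p x (-θ) (-θ) (x + j * p + p - θ) := ⟨j + 1, by linarith, by linarith⟩
  rw [e1] at hz2 ⊢
  generalize (j : ℤ) * p = m at *
  have h1 := (((h0.tile x y (-x - y - p - θ)).tile (x + m + 2 * p) (y + p + θ)
    (-x - y - m - 2 * p)).absorb (x + p + θ) y (-x - y - p - θ) (by ring) (by omega)).absorb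
    (x + m + p - θ) (y + p + θ) (-x - y - (m + 2 * p)) (by ring) (by omega)
  refine h1.conv (fun F G K => by simp only [val, par12, par23]; ring_nf) ?_
  rintro a b c hs ((⟨h1, h2, h3, h4, h5, h6, h7, h8⟩ | ⟨rfl, rfl, rfl⟩) | ⟨rfl, rfl, rfl⟩)
  · exact ⟨h1, by omega, by omega, h2, h3, h6.mono 1 (by omega) (by omega),
      fun h => (h7 h).2.mono 1 (by omega) (by omega),
      fun h => (h8 h).2.mono 1 (by omega) (by omega)⟩
  · exact ⟨hW _ hz1, by omega, by omega, by omega, by omega, q1.mono 0 (by omega) (by omega),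
      fun _ => q1.mono 0 (by omega) (by omega), fun h => by omega⟩
  · exact ⟨hW _ hz2, by omega, by omega, by omega, by omega, q2.mono 0 (by omega) (by omega),
      fun h => by omega, fun _ => q2⟩

theorem stack {W : ℤ → Prop} {u zb tlo lo : ℤ} (H : HP W u zb tlo lo)
    (hW : ∀ z, u ∣ z - zb → W z) (p T x y : ℤ) (j : ℕ)
    (ht : tlo ≤ T) (hT : 0 < T) (hp : 4 * T < p) (hl : lo ≤ p - 2 * T)
    (hu : u ∣ T) (hup : u ∣ p) (hz : u ∣ -x - y - zb) (k : ℕ) :
    ∀ h : ℤ, u ∣ h → (k + 1) * (p + T) ≤ h → h ≤ (k + 1) * (p + 2 * T) →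
    Good (par12 x (x + (j + 2) * p) y (y + h))
      (fun a b c => W c ∧ box x (x + (j + 2) * p) y (y + h) a b ∧
        Ph p x (-(2 * T)) (2 * T) a ∧ (b = y + h → Ph p x (-(2 * T)) (-1) a) ∧
        (a = x → u ∣ c - zb)) := by
  induction k with
  | zero =>
    intro h huh h1 h2
    have h0 := strip H hW p (h - p) x y j (by omega) (by omega) (by omega) (by omega)
      (dvd_sub huh hup) hup hz
    refine h0.conv (fun F G K => by simp only [par12]; ring_nf) ?_
    rintro a b c hs ⟨h1, h2, h3, h4, h5, h6, h7, h8⟩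
    exact ⟨h1, by unfold box; omega, h6.mono 0 (by omega) (by omega),
      fun e => (h8 (by omega)).mono 0 (by omega) (by omega), fun e => by omega⟩
  | succ k ih =>
    intro h huh h1 h2
    obtain ⟨θ, g, hθ1, hθ2, huθ, hg1, hg2, hg⟩ : ∃ θ g : ℤ, T ≤ θ ∧ θ ≤ 2 * T ∧ u ∣ θ ∧
        (k + 1) * (p + T) ≤ g ∧ g ≤ (k + 1) * (p + 2 * T) ∧ h = g + (p + θ) := by
      push_cast at h1 h2
      by_cases hc : h - (p + T) ≤ (k + 1) * (p + 2 * T)
      · exact ⟨T, h - (p + T), le_rfl, by omega, hu, by linarith, hc, by ring⟩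
      · refine ⟨h - (k + 1) * (p + 2 * T) - p, (k + 1) * (p + 2 * T), by linarith, by linarith,
          dvd_sub (dvd_sub huh (Dvd.dvd.mul_left (dvd_add hup (Dvd.dvd.mul_left hu 2)) _)) hup,
          mul_le_mul_of_nonneg_left (by omega) (by positivity), le_rfl, by ring⟩
    have hug : u ∣ g := by
      have := dvd_sub huh (dvd_add hup huθ)
      rwa [show h - (p + θ) = g by omega] at this
    have hg0 : 0 < g := lt_of_lt_of_le (mul_pos (by positivity) (by omega)) hg1
    have hz1 : u ∣ -x - (y + g) - zb := by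
      have := dvd_sub hz hug
      rwa [show -x - y - zb - g = -x - (y + g) - zb by ring] at this
    have hz2 : u ∣ -(x + (j + 2) * p) - (y + g) - zb := by
      have := dvd_sub hz1 (Dvd.dvd.mul_left hup ((j : ℤ) + 2))
      rwa [show -x - (y + g) - zb - (j + 2) * p = -(x + (j + 2) * p) - (y + g) - zb by ring] at this
    have h0 := ih g hug hg1 hg2
    have h3 := strip H hW p θ x (y + g) j (by omega) (by omega) (by omega) (by omega) huθ hup hz1
    have hj : 0 < ((j : ℤ) + 2) * p := mul_pos (by positivity) (by omega)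
    have q1 : Ph p x 0 0 x := ⟨0, by omega, by omega⟩
    have q2 : Ph p x 0 0 (x + (j + 2) * p) := ⟨j + 2, by omega, by omega⟩
    subst hg
    generalize ((j : ℤ) + 2) * p = m at *
    have h4 := ((h0.glue h3 (by
      rintro a b c hs ⟨-, h1, -, h2, -⟩ ⟨-, -, -, h3, -, -, h4, -⟩
      have hb : b = y + g := by unfold box at h1; omega
      exact (h2 hb).disj (h4 hb) (by omega) (by omega) (by omega))).absorb
      x (y + g) (-x - (y + g)) (by ring) (by unfold box; omega)).absorb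
      (x + m) (y + g) (-(x + m) - (y + g)) (by ring) (by unfold box; omega)
    refine h4.conv (fun F G K => by simp only [val, par12]; ring_nf) ?_
    rintro a b c hs (((⟨h1, h2, h3, h4, h5⟩ | ⟨h1, h2, h3, h4, h5, h6, h7, h8⟩) |
      ⟨rfl, rfl, rfl⟩) | ⟨rfl, rfl, rfl⟩)
    · unfold box at h2
      exact ⟨h1, by unfold box; omega, h3, fun e => by omega, h5⟩
    · exact ⟨h1, by unfold box; omega, h6.mono 0 (by omega) (by omega),
        fun e => (h8 (by omega)).mono 0 (by omega) (by omega), fun e => by omega⟩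
    · exact ⟨hW _ hz1, by unfold box; omega, q1.mono 0 (by omega) (by omega), fun e => by omega,
        fun _ => hz1⟩
    · exact ⟨hW _ hz2, by unfold box; omega, q2.mono 0 (by omega) (by omega), fun e => by omega,
        fun _ => hz2⟩

theorem level {W : ℤ → Prop} {u zb tlo lo : ℤ} (H : HP W u zb tlo lo)
    (hW : ∀ z, u ∣ z - zb → W z) (p T x y L h k : ℤ)
    (ht : tlo ≤ T) (hT : 0 < T) (hp : 4 * T < p) (hl : lo ≤ p - 2 * T)
    (hu : u ∣ T) (hup : u ∣ p) (hz : u ∣ -x - y - zb) (hL : 2 * p ≤ L) (hpL : p ∣ L)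
    (hk : p + T ≤ k * T) (huh : u ∣ h) (hh : k * (p + T) ≤ h) :
    Good (par12 x (x + L) y (y + h))
      (fun a b c => W c ∧ box x (x + L) y (y + h) a b ∧
        Ph p x (-(2 * T)) (2 * T) a ∧ (b = y + h → Ph p x (-(2 * T)) (-1) a) ∧
        (a = x → u ∣ c - zb)) := by
  obtain ⟨j, rfl⟩ := hpL
  have hj : 2 ≤ j := by
    by_contra hc
    have : j ≤ 1 := by omega
    nlinarith
  have hpT : 0 < p + T := by omega
  have hk1 : 1 ≤ k := by
    by_contra hc
    have : k ≤ 0 := by omega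
    nlinarith
  have hq : k ≤ h / (p + T) := Int.le_ediv_of_mul_le hpT hh
  have h1 : h / (p + T) * (p + T) ≤ h := Int.ediv_mul_le h hpT.ne'
  have h2 : h < (h / (p + T) + 1) * (p + T) := Int.lt_ediv_add_one_mul_self h hpT
  generalize h / (p + T) = q at *
  obtain ⟨j', rfl⟩ : ∃ j' : ℕ, j = j' + 2 := ⟨(j - 2).toNat, by omega⟩
  obtain ⟨q', rfl⟩ : ∃ q' : ℕ, q = q' + 1 := ⟨(q - 1).toNat, by omega⟩
  have := stack H hW p T x y j' ht hT hp hl hu hup hz q' h huh h1
    (by nlinarith [mul_le_mul_of_nonneg_right hq hT.le])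
  rwa [mul_comm p]

end Pool.Agent.Lib.H76Crit
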