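import Mathlib

set_option autoImplicit false

namespace Pool.Agent.Lib.H76Crit

abbrev Fn := ℤ → ℤ → ℤ
abbrev Df := Fn → Fn → Fn → ℤ

def val (t : ℤ × ℤ × ℤ) : Df := fun F G K => F t.1 t.2.1 + G t.1 t.2.2 + K t.2.1 t.2.2

def Good (D : Df) (A : ℤ → ℤ → ℤ → Prop) : Prop :=
  ∃ π τ : Multiset (ℤ × ℤ × ℤ), π.Nodup ∧
    (∀ p ∈ π, p.1 + p.2.1 + p.2.2 = 0 ∧ A p.1 p.2.1 p.2.2) ∧
    ∀ F G K, (τ.map fun t => val t F G K).sum = (π.map fun t => val t F G K).sum + D F G K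

theorem Good.conv {D D' : Df} {A A' : ℤ → ℤ → ℤ → Prop} (h : Good D A)
    (hD : ∀ F G K, D F G K = D' F G K) (hA : ∀ a b c, a + b + c = 0 → A a b c → A' a b c) :
    Good D' A' := by
  obtain ⟨π, τ, h1, h2, h3⟩ := h
  exact ⟨π, τ, h1, fun p hp => ⟨(h2 p hp).1, hA _ _ _ (h2 p hp).1 (h2 p hp).2⟩,
    fun F G K => by rw [h3, hD]⟩

theorem Good.mono {D : Df} {A A' : ℤ → ℤ → ℤ → Prop} (h : Good D A)
    (hA : ∀ a b c, a + b + c = 0 → A a b c → A' a b c) : Good D A' :=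
  h.conv (fun _ _ _ => rfl) hA

theorem good_zero : Good (fun _ _ _ => 0) (fun _ _ _ => False) :=
  ⟨0, 0, by simp, by simp, by simp⟩

theorem Good.tile {D : Df} {A : ℤ → ℤ → ℤ → Prop} (h : Good D A) (a b c : ℤ) :
    Good (fun F G K => D F G K + val (a, b, c) F G K) A := by
  obtain ⟨π, τ, h1, h2, h3⟩ := h
  refine ⟨π, (a, b, c) ::ₘ τ, h1, h2, fun F G K => ?_⟩
  rw [Multiset.map_cons, Multiset.sum_cons, h3]; ring

theorem Good.glue {D D' : Df} {A A' : ℤ → ℤ → ℤ → Prop} (h : Good D A) (h' : Good D' A')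
    (hd : ∀ a b c, a + b + c = 0 → A a b c → A' a b c → False) :
    Good (fun F G K => D F G K + D' F G K) (fun a b c => A a b c ∨ A' a b c) := by
  obtain ⟨π, τ, h1, h2, h3⟩ := h
  obtain ⟨π', τ', h1', h2', h3'⟩ := h'
  refine ⟨π + π', τ + τ', ?_, ?_, fun F G K => ?_⟩
  · rw [Multiset.nodup_add]
    refine ⟨h1, h1', Multiset.disjoint_left.2 fun {p} hp hp' => ?_⟩
    exact hd _ _ _ (h2 p hp).1 (h2 p hp).2 (h2' p hp').2
  · intro p hp
    rcases Multiset.mem_add.1 hp with hp | hp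
    · exact ⟨(h2 p hp).1, Or.inl (h2 p hp).2⟩
    · exact ⟨(h2' p hp).1, Or.inr (h2' p hp).2⟩
  · simp only [Multiset.map_add, Multiset.sum_add, h3, h3']; ring

theorem Good.absorb {D : Df} {A : ℤ → ℤ → ℤ → Prop} (h : Good D A) (a b c : ℤ)
    (hs : a + b + c = 0) (hn : ¬ A a b c) :
    Good (fun F G K => D F G K - val (a, b, c) F G K)
      (fun x y z => A x y z ∨ (x = a ∧ y = b ∧ z = c)) := by
  obtain ⟨π, τ, h1, h2, h3⟩ := h
  refine ⟨(a, b, c) ::ₘ π, τ, ?_, ?_, fun F G K => ?_⟩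
  · rw [Multiset.nodup_cons]
    exact ⟨fun hp => hn (h2 _ hp).2, h1⟩
  · intro p hp
    rcases Multiset.mem_cons.1 hp with rfl | hp
    · exact ⟨hs, Or.inr ⟨rfl, rfl, rfl⟩⟩
    · exact ⟨(h2 p hp).1, Or.inl (h2 p hp).2⟩
  · rw [Multiset.map_cons, Multiset.sum_cons, h3]; ring

theorem Good.transport {D : Df} {A A' : ℤ → ℤ → ℤ → Prop} (h : Good D A)
    (e : ℤ × ℤ × ℤ → ℤ × ℤ × ℤ) (he : Function.Injective e)
    (f g k : Fn → Fn → Fn → Fn)
    (hv : ∀ t F G K, val (e t) F G K = val t (f F G K) (g F G K) (k F G K))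
    (hA : ∀ t : ℤ × ℤ × ℤ, t.1 + t.2.1 + t.2.2 = 0 → A t.1 t.2.1 t.2.2 →
      (e t).1 + (e t).2.1 + (e t).2.2 = 0 ∧ A' (e t).1 (e t).2.1 (e t).2.2) :
    Good (fun F G K => D (f F G K) (g F G K) (k F G K)) A' := by
  obtain ⟨π, τ, h1, h2, h3⟩ := h
  refine ⟨π.map e, τ.map e, h1.map he, ?_, fun F G K => ?_⟩
  · intro p hp
    obtain ⟨t, ht, rfl⟩ := Multiset.mem_map.1 hp
    exact hA t (h2 t ht).1 (h2 t ht).2
  · simp only [Multiset.map_map, Function.comp_def, hv, h3]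

theorem Good.swap12 {D : Df} {A : ℤ → ℤ → ℤ → Prop} (h : Good D A) :
    Good (fun F G K => D (fun x y => F y x) K G) (fun a b c => A b a c) :=
  h.transport (fun t => (t.2.1, t.1, t.2.2))
    (fun ⟨a, b, c⟩ ⟨a', b', c'⟩ h => by simp only [Prod.mk.injEq] at h ⊢; tauto)
    (fun F _ _ x y => F y x) (fun _ _ K => K) (fun _ G _ => G)
    (fun t F G K => by simp only [val]; ring)
    (fun t h1 h2 => ⟨by simp only; omega, h2⟩)

theorem Good.swap23 {D : Df} {A : ℤ → ℤ → ℤ → Prop} (h : Good D A) :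
    Good (fun F G K => D G F (fun x y => K y x)) (fun a b c => A a c b) :=
  h.transport (fun t => (t.1, t.2.2, t.2.1))
    (fun ⟨a, b, c⟩ ⟨a', b', c'⟩ h => by simp only [Prod.mk.injEq] at h ⊢; tauto)
    (fun _ G _ => G) (fun F _ _ => F) (fun _ _ K x y => K y x)
    (fun t F G K => by simp only [val]; ring)
    (fun t h1 h2 => ⟨by simp only; omega, h2⟩)

theorem Good.neg {D : Df} {A : ℤ → ℤ → ℤ → Prop} (h : Good D A) :
    Good (fun F G K => D (fun x y => F (-x) (-y)) (fun x y => G (-x) (-y))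
      (fun x y => K (-x) (-y))) (fun a b c => A (-a) (-b) (-c)) :=
  h.transport (fun t => (-t.1, -t.2.1, -t.2.2))
    (fun ⟨a, b, c⟩ ⟨a', b', c'⟩ h => by simp only [Prod.mk.injEq] at h ⊢; omega)
    (fun F _ _ x y => F (-x) (-y)) (fun _ G _ x y => G (-x) (-y)) (fun _ _ K x y => K (-x) (-y))
    (fun t F G K => by simp only [val])
    (fun t h1 h2 => ⟨by simp only; omega, by simpa using h2⟩)

def par12 (x0 x1 y0 y1 : ℤ) : Df := fun F G K =>
  F x0 y0 + F x1 y1 + G x0 (-x0 - y1) + K y1 (-x0 - y1) + G x1 (-x1 - y0) + K y0 (-x1 - y0)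

def par13 (x0 x1 z0 z1 : ℤ) : Df := fun F G K =>
  G x0 z0 + G x1 z1 + F x0 (-x0 - z1) + K (-x0 - z1) z1 + F x1 (-x1 - z0) + K (-x1 - z0) z0

def par23 (y0 y1 z0 z1 : ℤ) : Df := fun F G K =>
  K y0 z0 + K y1 z1 + F (-y0 - z1) y0 + G (-y0 - z1) z1 + F (-y1 - z0) y1 + G (-y1 - z0) z0

def box (x0 x1 y0 y1 a b : ℤ) : Prop :=
  x0 ≤ a ∧ a ≤ x1 ∧ y0 ≤ b ∧ b ≤ y1 ∧ ¬ ((a = x0 ∨ a = x1) ∧ (b = y0 ∨ b = y1))

theorem euclid : ∀ (m : ℕ) (x y A B : ℤ), 0 < A → 0 < B → A + B ≤ m →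
    Good (par12 x (x + A) y (y + B)) (fun a b _ => box x (x + A) y (y + B) a b) := by
  intro m
  induction m with
  | zero => intro x y A B h1 h2 h3; omega
  | succ m ih =>
    intro x y A B h1 h2 h3
    rcases lt_trichotomy A B with h | h | h
    · have h4 := ih x y A (B - A) h1 (by omega) (by omega)
      have h5 := ((((h4.tile x (y + (B - A)) (-x - y - B)).tile (x + A) (y + B)
        (-x - y - B)).absorb
        x (y + (B - A)) (-x - (y + (B - A))) (by ring) (by unfold box; omega)).absorb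
        (x + A) (y + (B - A)) (-(x + A) - (y + (B - A))) (by ring) (by unfold box; omega))
      exact h5.conv (fun F G K => by simp only [val, par12]; ring_nf)
        (fun a b c _ h => by unfold box at h ⊢; omega)
    · subst h
      exact ((good_zero.tile x y (-x - y - A)).tile (x + A) (y + A) (-x - y - A)).conv
        (fun F G K => by simp only [val, par12]; ring_nf) (fun _ _ _ _ h => h.elim)
    · have h4 := ih x y (A - B) B (by omega) h2 (by omega)
      have h5 := ((((h4.tile (x + (A - B)) y (-x - y - A)).tile (x + A) (y + B)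
        (-x - y - A)).absorb
        (x + (A - B)) y (-(x + (A - B)) - y) (by ring) (by unfold box; omega)).absorb
        (x + (A - B)) (y + B) (-(x + (A - B)) - (y + B)) (by ring) (by unfold box; omega))
      exact h5.conv (fun F G K => by simp only [val, par12]; ring_nf)
        (fun a b c _ h => by unfold box at h ⊢; omega)

end Pool.Agent.Lib.H76Crit
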