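import Pool.Agent.Lib.MP_e1ba52_h76.Strip

set_option autoImplicit false

namespace Pool.Agent.Lib.H76Crit

theorem hp_zero : HP (fun _ => True) 1 0 1 1 := by
  intro x t z l ht hl _ _
  exact (euclid (t + l).toNat x z t l (by omega) (by omega) (by omega)).swap23.conv
    (fun F G K => by simp only [par12, par13]) (fun a b c _ h => ⟨trivial, h⟩)

theorem levelQ (Q θ k x y L h : ℤ) (hθ : 0 < θ) (hQ : 4 * θ < Q) (hk : Q + θ ≤ k * θ)
    (hL : 2 * Q ≤ L) (hQL : Q ∣ L) (hh : k * (Q + θ) ≤ h) :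
    Good (par13 y (y + h) x (x + L))
      (fun a _ c => box y (y + h) x (x + L) a c ∧ Ph Q x (-(2 * θ)) (2 * θ) c ∧
        (a = y + h → Ph Q x (-(2 * θ)) (-1) c)) := by
  have h0 := level hp_zero (fun _ _ => trivial) Q θ x y L h k (by omega) hθ hQ (by omega)
    (one_dvd _) (one_dvd _) (one_dvd _) hL hQL hk (one_dvd _) hh
  refine h0.swap12.swap23.conv (fun F G K => by simp only [par12, par13]; ring_nf) ?_
  rintro a b c _ ⟨-, h1, h2, h3, -⟩
  exact ⟨by unfold box at h1 ⊢; omega, h2, h3⟩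

theorem hp_one (Q θ k zb : ℤ) (hθ : 0 < θ) (hQ : 4 * θ < Q) (hk : Q + θ ≤ k * θ) :
    HP (fun c => Ph Q zb (-(2 * θ)) (2 * θ) c) Q zb (k * (Q + θ)) (2 * Q) := by
  intro x t z l ht hl hu ⟨i, hi⟩
  refine (levelQ Q θ k z x l t hθ hQ hk hl hu ht).mono ?_
  rintro a b c _ ⟨h1, h2, -⟩
  exact ⟨h2.mono i (by linarith) (by linarith), h1⟩

theorem tri (Q θ k T P k' c b a : ℤ) (hθ : 0 < θ) (hQ : 4 * θ < Q) (hk : Q + θ ≤ k * θ)
    (hT : k * (Q + θ) ≤ T) (hQT : Q ≤ T) (hdT : Q ∣ T) (hdP : Q ∣ P) (hP : 4 * T < P)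
    (hk' : P + T ≤ k' * T) (hN : k' * (P + T) + 5 * P ≤ c + b + a) :
    ∃ c0, -(a + b) < c0 ∧ c0 < c ∧ Ph P c (-(2 * T)) (2 * T) c0 ∧
      Good (fun F G K => val (c, b, a) F G K - val (c0, b, a) F G K)
        (fun x y z => Ph Q a (-(2 * θ)) (2 * θ) z ∧ Ph P c (-(2 * T)) (2 * T) x ∧
          b - (k' * (P + T) + 3 * P) ≤ y ∧ y ≤ b ∧ -(a + b) ≤ x ∧ x ≤ c) := by
  have hQ0 : 0 < Q := by omega
  have hP0 : 0 < P := by omega
  have hη0 : 0 < k * (Q + θ) := by
    have : 0 < k := by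
      by_contra hc
      have : k ≤ 0 := by omega
      nlinarith
    positivity
  have hH0 : 0 < k' * (P + T) := by
    have : 0 < k' := by
      by_contra hc
      have : k' ≤ 0 := by omega
      nlinarith
    exact mul_pos this (by omega)
  have hdH : Q ∣ k' * (P + T) := Dvd.dvd.mul_left (dvd_add hdP hdT) _
  have HH := hp_one Q θ k a hθ hQ hk
  have hW : ∀ z, Q ∣ z - a → Ph Q a (-(2 * θ)) (2 * θ) z :=
    fun z hz => (Ph.of_dvd hz).mono 0 (by omega) (by omega)
  obtain ⟨η, hη1, hη2, hη3⟩ : ∃ η, k * (Q + θ) ≤ η ∧ η < k * (Q + θ) + Q ∧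
      Q ∣ c + b + a - η := by
    refine ⟨k * (Q + θ) + (c + b + a - k * (Q + θ)) % Q, ?_, ?_, (c + b + a - k * (Q + θ)) / Q, ?_⟩
    · linarith [Int.emod_nonneg (c + b + a - k * (Q + θ)) hQ0.ne']
    · linarith [Int.emod_lt_of_pos (c + b + a - k * (Q + θ)) hQ0]
    · linarith [Int.emod_add_mul_ediv (c + b + a - k * (Q + θ)) Q]
  obtain ⟨g, hg1, hg2, j0, hg3⟩ : ∃ g, k' * (P + T) ≤ g ∧ g < k' * (P + T) + P ∧
      P ∣ c + b + a - η - g := by
    refine ⟨k' * (P + T) + (c + b + a - η - k' * (P + T)) % P, ?_, ?_,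
      (c + b + a - η - k' * (P + T)) / P, ?_⟩
    · linarith [Int.emod_nonneg (c + b + a - η - k' * (P + T)) hP0.ne']
    · linarith [Int.emod_lt_of_pos (c + b + a - η - k' * (P + T)) hP0]
    · linarith [Int.emod_add_mul_ediv (c + b + a - η - k' * (P + T)) P]
  have hdg : Q ∣ g := by
    have := dvd_sub hη3 (Dvd.dvd.mul_right hdP j0)
    rwa [show c + b + a - η - P * j0 = g by omega] at this
  have hj0 : 3 ≤ j0 := by
    by_contra hc
    have : j0 ≤ 2 := by omega
    nlinarith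
  obtain ⟨j, rfl⟩ : ∃ j : ℕ, j0 = j + 3 := ⟨(j0 - 3).toNat, by omega⟩
  have hj : 0 ≤ (j : ℤ) * P := mul_nonneg (by positivity) hP0.le
  have hm : c + b + a = j * P + 3 * P + η + g := by linarith
  have hPg : P ≤ g := by nlinarith
  have A1 := levelQ Q θ k (a - P - g) (c - j * P - 2 * P - η) (P + g) η hθ hQ hk (by omega)
    (dvd_add hdP hdg) hη1
  have A2 := level HH hW P T (c - j * P - 2 * P) (b - P - η - g) (j * P + 2 * P) g k' hT (by omega)
    hP (by omega) hdT hdP (by rw [show -(c - j * P - 2 * P) - (b - P - η - g) - a = 0 by omega]; simp)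
    (by omega) ⟨j + 2, by ring⟩ hk' hdg hg1
  have hda : Q ∣ a - P - g - a := by
    rw [show a - P - g - a = -(P + g) by ring]
    exact (dvd_add hdP hdg).neg_right
  have A3 := run HH hW P η (b - P - η) (a - P - g) P (c - j * P - P - η) (by omega) hη1 (by omega)
    (by omega) (by omega) (by omega) le_rfl hdP hdP hda j
  obtain ⟨g', hg'⟩ := hdg
  obtain ⟨P', hP'⟩ := hdP
  have r1 : ∀ z, z = a ∨ z = a - P - g ∨ z = a - g ∨ z = a - 2 * P - g - j * P ∨
      z = a - 2 * P - j * P → Ph Q a (-(2 * θ)) (2 * θ) z := by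
    rintro z (rfl | rfl | rfl | rfl | rfl)
    · exact ⟨0, by omega, by omega⟩
    · exact ⟨-P' - g', by linarith, by linarith⟩
    · exact ⟨-g', by linarith, by linarith⟩
    · exact ⟨-2 * P' - g' - j * P', by rw [hP', hg']; linarith, by rw [hP', hg']; linarith⟩
    · exact ⟨-2 * P' - j * P', by rw [hP']; linarith, by rw [hP']; linarith⟩
  have r2 : ∀ x, x = c ∨ x = c - P - η ∨ x = c - j * P - 2 * P ∨ x = c - j * P - 2 * P - η ∨
      x = c - j * P - P → Ph P c (-(2 * T)) (2 * T) x := by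
    rintro x (rfl | rfl | rfl | rfl | rfl)
    · exact ⟨0, by omega, by omega⟩
    · exact ⟨-1, by omega, by omega⟩
    · exact ⟨-j - 2, by linarith, by linarith⟩
    · exact ⟨-j - 2, by linarith, by linarith⟩
    · exact ⟨-j - 1, by linarith, by linarith⟩
  have r3 : ∀ z, Ph Q (a - P - g) (-(2 * θ)) (2 * θ) z → Ph Q a (-(2 * θ)) (2 * θ) z :=
    fun z hz => hz.mono (-P' - g') (by linarith) (by linarith)
  have r4 : ∀ z, Ph Q (a - P - g) (-(2 * θ)) (-1) z → Q ∣ z - a → False :=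
    fun z hz h => (hz.mono (-P' - g') (xb' := a) (lo' := -(2 * θ)) (hi' := -1)
      (by linarith) (by linarith)).disj (Ph.of_dvd h) hQ0 (by omega) (by omega)
  have r5 : ∀ x, c - j * P - 2 * P - η ≤ x → x ≤ c - j * P - 2 * P → Ph P c (-(2 * T)) (2 * T) x :=
    fun x h1 h2 => ⟨-j - 2, by linarith, by linarith⟩
  have r6 : ∀ x, Ph P (c - j * P - 2 * P) (-(2 * T)) (2 * T) x → Ph P c (-(2 * T)) (2 * T) x :=
    fun x hx => hx.mono (-j - 2) (by linarith) (by linarith)
  have r7 : ∀ x, Ph P (c - j * P - P - η) 0 (P + η - P) x → Ph P c (-(2 * T)) (2 * T) x :=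
    fun x hx => hx.mono (-j - 1) (by linarith) (by linarith)
  have r8 : ∀ x, Ph P (c - j * P - 2 * P) (-(2 * T)) (-1) x → Ph P (c - j * P - P - η) η η x →
      False := fun x h1 h2 => h1.disj (h2.mono 1 (xb' := c - j * P - 2 * P) (lo' := 0) (hi' := 0)
        (by linarith) (by linarith)) hP0 (by omega) (by omega)
  have r9 : ¬ Ph P (c - j * P - 2 * P) (-(2 * T)) (-1) (c - j * P - P) :=
    fun h => h.disj (lo' := 0) (hi' := 0) ⟨1, by linarith, by linarith⟩ hP0 (by omega) (by omega)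
  have r10 : ¬ Ph Q (a - P - g) (-(2 * θ)) (-1) (a - g) :=
    fun h => r4 _ h ⟨-g', by linarith⟩
  refine ⟨c - j * P - 2 * P - η, by omega, by omega, r2 _ (by omega), ?_⟩
  clear HH hW hη3 hg3 hda hdH hdT hg' hP' hk hk'
  generalize (j : ℤ) * P = m at *
  generalize k' * (P + T) = H0 at *
  generalize k * (Q + θ) = η0 at *
  have B1 := (A1.glue A2 (by
      rintro x y z hs ⟨h1, -, h2⟩ ⟨-, h3, -, -, h4⟩
      unfold box at h1 h3
      exact r4 _ (h2 (by omega)) (h4 (by omega)))).glue A3 (by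
      rintro x y z hs (⟨h1, -⟩ | ⟨-, h1, -, h2, -⟩) ⟨-, h3, h4, h5, h6, -, h7, -⟩
      · unfold box at h1; omega
      · unfold box at h1
        exact r8 _ (h2 (by omega)) (h7 (by omega)).2)
  have B2 := ((B1.tile c (b - P - η - g) a).tile c b (a - 2 * P - g - m)).tile
    (c - m - 2 * P) (b - P - η) (a - P - g)
  have B3 := ((((B2.absorb (c - m - 2 * P) (b - P - η - g) a (by omega)
      (by unfold box; omega)).absorb (c - m - 2 * P - η) (b - P - g) a (by omega)
      (by unfold box; omega)).absorb (c - m - 2 * P - η) b (a - P - g) (by omega)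
      (by unfold box; omega)).absorb (c - m - 2 * P) (b - η) (a - P - g) (by omega)
      (by unfold box; omega)).absorb (c - P - η) b (a - 2 * P - g - m) (by omega)
      (by unfold box; omega)
  have B4 := (B3.absorb c (b - P - η) (a - 2 * P - g - m) (by omega)
      (by unfold box; omega)).absorb c (b - P - η - g) (a - 2 * P - m) (by omega)
      (by unfold box; omega)
  have B5 := (B4.absorb (c - m - P) (b - P - η) (a - P - g) (by omega) (by
      rintro (((((((((⟨h, -⟩ | ⟨-, -, -, h, -⟩) | h) | h) | h) | h) | h) | h) | h) | h)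
      · unfold box at h; omega
      · exact r9 (h (by omega))
      all_goals omega)).absorb (c - m - 2 * P) (b - P - η) (a - g) (by omega) (by
      rintro ((((((((((⟨-, -, h⟩ | ⟨-, h, -⟩) | h) | h) | h) | h) | h) | h) | h) | h) | h)
      · exact r10 (h (by omega))
      · unfold box at h; omega
      all_goals omega)
  refine B5.conv (fun F G K => ?_) ?_
  · have e : a = m + 3 * P + η + g - c - b := by omega
    subst e
    simp only [val, par12, par13, par23]; ring_nf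
  · rintro x y z hs (((((((((((⟨h1, h2, -⟩ | ⟨h1, h2, h3, -⟩) | ⟨h1, h2, h3, h4, h5, h6, -⟩) |
      h) | h) | h) | h) | h) | h) | h) | h) | h)
    · unfold box at h1
      exact ⟨r3 _ h2, r5 _ (by omega) (by omega), by omega⟩
    · unfold box at h2
      exact ⟨h1, r6 _ h3, by omega⟩
    · exact ⟨h1, r7 _ h6, by omega⟩
    all_goals exact ⟨r1 _ (by omega), r2 _ (by omega), by omega⟩

end Pool.Agent.Lib.H76Crit
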